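import Mathlib

/-!
# MP_2df7e1_an: for a generic interval map all special alpha-limit sets are closed
-/

namespace Pool.Agent.Results.MP_2df7e1_an.GenericClosed

open Set Topology Filter

/-! ### definitions -/

/-- backward orbit branches -/
def IsBranch {α : Type} (f : α → α) (x : α) (b : ℕ → α) : Prop :=
  b 0 = x ∧ ∀ n, f (b (n + 1)) = b n

/-- the special alpha-limit set of `x` -/
def sAlpha (f : unitInterval → unitInterval) (x : unitInterval) : Set unitInterval :=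
  {y | ∃ b : ℕ → unitInterval, IsBranch f x b ∧
    ∃ k : ℕ → ℕ, Tendsto k atTop atTop ∧ Tendsto (fun i => b (k i)) atTop (𝓝 y)}

/-! ### the abstract part -/

section Abstract

set_option linter.unusedSectionVars false

variable {α : Type} [ConditionallyCompleteLinearOrder α] [TopologicalSpace α] [OrderTopology α]
  [DenselyOrdered α] [CompactSpace α] [FirstCountableTopology α]

/-- `y` is an accumulation point of a branch of `x` -/
def Acc (f : α → α) (x y : α) : Prop :=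
  ∃ b, IsBranch f x b ∧ ∀ O ∈ 𝓝 y, ∃ᶠ n in atTop, b n ∈ O

lemma lemS {f : α → α} {x y : α} (W : Set α) (hx : x ∈ W)
    (h : ∀ w ∈ W, ∀ O ∈ 𝓝 y, ∃ u ∈ W, u ∈ O ∧ ∃ m : ℕ, 1 ≤ m ∧ f^[m] u = w) : Acc f x y := by
  obtain ⟨O, hO⟩ := (𝓝 y).exists_antitone_basis
  have h1 : ∀ (w : W) (k : ℕ), ∃ (u : W) (m : ℕ), u.1 ∈ O k ∧ 1 ≤ m ∧ f^[m] u.1 = w.1 := by
    intro w k
    obtain ⟨u, hu, hu2, m, hm, hmu⟩ := h w.1 w.2 (O k) (hO.toHasBasis.mem_of_mem trivial)
    exact ⟨⟨u, hu⟩, m, hu2, hm, hmu⟩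
  choose F M hF1 hM hFM using h1
  let u : ℕ → W := fun n => Nat.rec ⟨x, hx⟩ (fun k w => F w k) n
  have hu0 : (u 0).1 = x := rfl
  have hus : ∀ k, u (k + 1) = F (u k) k := fun _ => rfl
  let m : ℕ → ℕ := fun k => M (u k) k
  let T : ℕ → ℕ := fun n => ∑ i ∈ Finset.range n, m i
  have hT0 : T 0 = 0 := rfl
  have hTs : ∀ n, T (n + 1) = T n + m n := fun n => Finset.sum_range_succ _ _
  have hm1 : ∀ n, 1 ≤ m n := fun n => hM _ _
  have hstep : ∀ n, f^[m n] (u (n + 1)).1 = (u n).1 := fun n => hFM _ _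
  have hTn : ∀ n, n ≤ T n := by
    intro n
    induction n with
    | zero => simp
    | succ n ih => rw [hTs]; have := hm1 n; omega
  have hcons : ∀ k l, k ≤ l → T k ≤ T l ∧ f^[T l - T k] (u l).1 = (u k).1 := by
    intro k l hkl
    induction l, hkl using Nat.le_induction with
    | base => simp
    | succ l hkl ih =>
      obtain ⟨ih1, ih2⟩ := ih
      refine ⟨by rw [hTs]; omega, ?_⟩
      have : T (l + 1) - T k = (T l - T k) + m l := by rw [hTs]; omega
      rw [this, Function.iterate_add_apply, hstep, ih2]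
  refine ⟨fun n => f^[T n - n] (u n).1, ⟨by simp [hT0, hu0], ?_⟩, ?_⟩
  · intro n
    show f (f^[T (n + 1) - (n + 1)] (u (n + 1)).1) = f^[T n - n] (u n).1
    rw [← Function.iterate_succ_apply' f]
    have h2 := hTn n
    have h3 := hm1 n
    have : (T (n + 1) - (n + 1)).succ = (T n - n) + m n := by rw [hTs]; omega
    rw [this, Function.iterate_add_apply, hstep]
  · intro O' hO'
    obtain ⟨k0, -, hk0⟩ := hO.toHasBasis.mem_iff.1 hO'
    rw [frequently_atTop]
    intro N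
    refine ⟨T (k0 + N + 1), le_trans (by omega) (hTn _), ?_⟩
    show f^[T (T (k0 + N + 1)) - T (k0 + N + 1)] (u (T (k0 + N + 1))).1 ∈ O'
    rw [(hcons _ _ (hTn _)).2]
    apply hk0
    apply hO.antitone (show k0 ≤ k0 + N by omega)
    rw [hus]
    exact hF1 _ _

/-- the union of the forward images -/
def V (f : α → α) (U : Set α) : Set α := {w | ∃ u ∈ U, ∃ m : ℕ, f^[m] u = w}

lemma V_mono {f : α → α} {U U' : Set α} (h : U ⊆ U') : V f U ⊆ V f U' := by
  rintro w ⟨u, hu, m, hm⟩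
  exact ⟨u, h hu, m, hm⟩

lemma V_iter {f : α → α} {U : Set α} (k : ℕ) {w : α} (h : w ∈ V f U) : f^[k] w ∈ V f U := by
  obtain ⟨u, hu, m, rfl⟩ := h
  exact ⟨u, hu, k + m, by rw [Function.iterate_add_apply]⟩

lemma subset_V (f : α → α) (U : Set α) : U ⊆ V f U := fun u hu => ⟨u, hu, 0, rfl⟩

lemma lemQ {f : α → α} {x y : α} {ι : Type} (P : ι → Set α)
    (hsmall : ∀ O ∈ 𝓝 y, ∃ i, P i ⊆ O) (hdir : ∀ i j, ∃ k, P k ⊆ P i ∩ P j) (i0 : ι)
    (h0 : ∀ i, P i0 ⊆ V f (P i))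
    (hy : (∀ i, y ∉ P i) ∨ ((∃ N, 1 ≤ N ∧ f^[N] y = y) ∧ ∀ i, y ∈ P i))
    (hx : ∀ i, x ∈ V f (P i)) : Acc f x y := by
  refine lemS {w | ∀ i, w ∈ V f (P i)} hx ?_
  intro w hw O hO
  by_cases hwy : w = y
  · subst hwy
    rcases hy with hy | ⟨⟨N, hN, hNy⟩, hy⟩
    · obtain ⟨i, hi⟩ := hsmall O hO
      obtain ⟨k, hk⟩ := hdir i i0
      obtain ⟨u, hu, m, hm⟩ := hw k
      refine ⟨u, fun j => h0 j (hk hu).2, hi (hk hu).1, m, ?_, hm⟩
      rcases Nat.eq_zero_or_pos m with rfl | h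
      · exact absurd hu (by have : u = w := hm; rw [this]; exact hy k)
      · exact h
    · exact ⟨w, hw, mem_of_mem_nhds hO, N, hN, hNy⟩
  · have h1 : O ∩ {w}ᶜ ∈ 𝓝 y := inter_mem hO (isOpen_compl_singleton.mem_nhds (Ne.symm hwy))
    obtain ⟨i, hi⟩ := hsmall _ h1
    obtain ⟨k, hk⟩ := hdir i i0
    obtain ⟨u, hu, m, hm⟩ := hw k
    refine ⟨u, fun j => h0 j (hk hu).2, (hi (hk hu).1).1, m, ?_, hm⟩
    rcases Nat.eq_zero_or_pos m with rfl | h
    · exact absurd hm (hi (hk hu).1).2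
    · exact h

lemma iter_uIcc {f : α → α} (hf : Continuous f) (k : ℕ) (a b : α) :
    uIcc (f^[k] a) (f^[k] b) ⊆ f^[k] '' uIcc a b :=
  intermediate_value_uIcc (hf.iterate k).continuousOn

/-- the right neighbourhoods of a fixed point of an iterate: images form an interval -/
lemma V_ordConnected {f : α → α} (hf : Continuous f) {y : α} (hy : f y = y) {U : Set α}
    (hU : ∀ u ∈ U, uIcc y u ⊆ U) {a : α} (ha : a ∈ V f U) : uIcc y a ⊆ V f U := by
  obtain ⟨u, hu, m, rfl⟩ := ha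
  intro t ht
  have h1 : f^[m] y = y := Function.iterate_fixed hy m
  have h2 : t ∈ uIcc (f^[m] y) (f^[m] u) := by rwa [h1]
  obtain ⟨s, hs, hst⟩ := iter_uIcc hf m y u h2
  exact ⟨s, hU u hu hs, m, hst⟩

/-- periodic points -/
lemma lemP {f : α → α} (hf : Continuous f) {x y : α} {N : ℕ} (hN : 1 ≤ N) (hNy : f^[N] y = y)
    (hmax : ∃ d, y < d) (hx : ∀ d, y < d → x ∈ V f (Ico y d)) : Acc f x y := by
  classical
  set G := f^[N] with hG
  have hGc : Continuous G := hf.iterate N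
  have hGq : ∀ q, G^[q] = f^[N * q] := fun q => by rw [hG, ← Function.iterate_mul]
  have hVG : ∀ U, V G U ⊆ V f U := by
    rintro U w ⟨u, hu, m, hm⟩
    exact ⟨u, hu, N * m, by rw [← hGq]; exact hm⟩
  have hVr : ∀ U w, w ∈ V f U → ∃ r < N, ∃ v ∈ V G U, f^[r] v = w := by
    rintro U w ⟨u, hu, m, rfl⟩
    refine ⟨m % N, Nat.mod_lt _ (by omega), G^[m / N] u, ⟨u, hu, _, rfl⟩, ?_⟩
    rw [hGq, ← Function.iterate_add_apply, Nat.mod_add_div]
  have hIco : ∀ d, ∀ u ∈ Ico y d, uIcc y u ⊆ Ico y d := by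
    intro d u hu t ht
    rw [uIcc_of_le hu.1] at ht
    exact ⟨ht.1, lt_of_le_of_lt ht.2 hu.2⟩
  have hIoc : ∀ b, ∀ u ∈ Ioc b y, uIcc y u ⊆ Ioc b y := by
    intro d u hu t ht
    rw [uIcc_of_ge hu.2] at ht
    exact ⟨lt_of_lt_of_le hu.1 ht.1, ht.2⟩
  by_cases hP0 : ∃ e, y < e ∧ ∀ d, y < d → Ico y e ⊆ V G (Ico y d)
  · obtain ⟨e, he, hP⟩ := hP0
    refine lemQ (ι := {d // y < d}) (fun d => Ico y d.1) ?_ ?_ ⟨e, he⟩ ?_ ?_ ?_
    · intro O hO
      obtain ⟨d, hd, hdO⟩ := exists_Ico_subset_of_mem_nhds hO hmax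
      exact ⟨⟨d, hd⟩, hdO⟩
    · rintro ⟨i, hi⟩ ⟨j, hj⟩
      exact ⟨⟨min i j, lt_min hi hj⟩, fun t ht =>
        ⟨⟨ht.1, lt_of_lt_of_le ht.2 (min_le_left _ _)⟩, ⟨ht.1, lt_of_lt_of_le ht.2 (min_le_right _ _)⟩⟩⟩
    · rintro ⟨d, hd⟩
      exact (hP d hd).trans (hVG _)
    · exact Or.inr ⟨⟨N, hN, hNy⟩, fun d => ⟨le_rfl, d.2⟩⟩
    · exact fun d => hx d.1 d.2
  · push Not at hP0
    -- the images are small to the right
    have hA : ∀ e, y < e → ∃ d, y < d ∧ V G (Ico y d) ⊆ Iio e := by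
      intro e he
      obtain ⟨d, hd, hde⟩ := hP0 e he
      refine ⟨d, hd, fun a ha => ?_⟩
      by_contra hcon
      rw [mem_Iio, not_lt] at hcon
      apply hde
      intro t ht
      apply V_ordConnected hGc hNy (hIco d) ha
      rw [uIcc_of_le (he.le.trans hcon)]
      exact ⟨ht.1, ht.2.le.trans hcon⟩
    -- left part
    have hB : ∀ b, b < y → ∃ d, y < d ∧ ∀ d', y < d' → d' ≤ d → V G (Ico y d') ∩ Iio y ⊆ V G (Ioc b y) := by
      intro b hb
      have h1 : G ⁻¹' Ioi b ∈ 𝓝 y := hGc.continuousAt.preimage_mem_nhds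
        (isOpen_Ioi.mem_nhds (by rw [hNy]; exact hb))
      obtain ⟨e, he, heb⟩ := exists_Ico_subset_of_mem_nhds h1 hmax
      obtain ⟨d, hd, hde⟩ := hA e he
      refine ⟨d, hd, fun d' hd' hdd' => ?_⟩
      rintro a ⟨⟨u, hu, m, hm⟩, ha⟩
      subst hm
      have hu' : u ∈ Ico y d := ⟨hu.1, lt_of_lt_of_le hu.2 hdd'⟩
      induction m with
      | zero => exact absurd hu.1 (not_le.2 ha)
      | succ m ih =>
        rcases lt_or_ge (G^[m] u) y with h | h
        · have h2 := ih h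
          rw [Function.iterate_succ_apply']
          exact V_iter 1 h2
        · have h3 : G^[m] u ∈ Ico y e := ⟨h, hde ⟨u, hu', m, rfl⟩⟩
          have h4 : b < G (G^[m] u) := heb h3
          rw [Function.iterate_succ_apply'] at ha ⊢
          exact subset_V _ _ ⟨h4, le_of_lt ha⟩
    by_cases horb : ∃ r, f^[r] y = x
    · -- `x` is in the orbit of `y`
      refine lemS {w | ∃ r, f^[r] y = w} horb ?_
      rintro w ⟨r, rfl⟩ O hO
      refine ⟨y, ⟨0, rfl⟩, mem_of_mem_nhds hO, r + N, by omega, ?_⟩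
      rw [Function.iterate_add_apply, ← hG, hNy]
    · push Not at horb
      have hO : (⋂ r ∈ Finset.range N, f^[r] ⁻¹' {x}ᶜ) ∈ 𝓝 y := by
        rw [Filter.biInter_finset_mem]
        intro r _
        exact (hf.iterate r).continuousAt.preimage_mem_nhds
          (isOpen_compl_singleton.mem_nhds (horb r))
      set O := ⋂ r ∈ Finset.range N, f^[r] ⁻¹' {x}ᶜ with hOdef
      have hOr : ∀ v ∈ O, ∀ r < N, f^[r] v ≠ x := by
        intro v hv r hr
        have := mem_iInter₂.1 hv r (Finset.mem_range.2 hr)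
        exact this
      obtain ⟨e0, he0, he0O⟩ := exists_Ico_subset_of_mem_nhds hO hmax
      obtain ⟨d0, hd0, hd0e⟩ := hA e0 he0
      -- a point to the left of `y`
      have hleft : ∀ d, y < d → d ≤ d0 → ∃ r < N, ∃ v ∈ V G (Ico y d), f^[r] v = x ∧ v < y := by
        intro d hd hdd
        obtain ⟨r, hr, v, hv, hvx⟩ := hVr _ _ (hx d hd)
        refine ⟨r, hr, v, hv, hvx, ?_⟩
        by_contra hcon
        push Not at hcon
        have h1 : v < e0 := hd0e (V_mono (Ico_subset_Ico_right hdd) hv)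
        exact hOr v (he0O ⟨hcon, h1⟩) r hr hvx
      obtain ⟨r1, hr1, v1, hv1, hvx1, hvy1⟩ := hleft d0 hd0 le_rfl
      obtain ⟨b1, hb1, hb1O⟩ := exists_Ioc_subset_of_mem_nhds hO ⟨v1, hvy1⟩
      have hkey : ∀ b, b < y → x ∈ V f (Ioc b y) ∧ Ioc b1 y ⊆ V G (Ioc b y) := by
        intro b hb
        obtain ⟨d, hd, hdb⟩ := hB b hb
        obtain ⟨r, hr, v, hv, hvx, hvy⟩ := hleft (min d d0) (lt_min hd hd0) (min_le_right _ _)
        have h1 : v ∈ V G (Ioc b y) := hdb _ (lt_min hd hd0) (min_le_left _ _) ⟨hv, hvy⟩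
        refine ⟨?_, ?_⟩
        · rw [← hvx]; exact V_iter r (hVG _ h1)
        · have h2 : v ≤ b1 := by
            by_contra hcon
            push Not at hcon
            exact hOr v (hb1O ⟨hcon, hvy.le⟩) r hr hvx
          intro t ht
          apply V_ordConnected hGc hNy (hIoc b) h1
          rw [uIcc_of_ge hvy.le]
          exact ⟨h2.trans ht.1.le, ht.2⟩
      refine lemQ (ι := {b // b < y}) (fun b => Ioc b.1 y) ?_ ?_ ⟨b1, hb1⟩ ?_ ?_ ?_
      · intro O hO
        obtain ⟨d, hd, hdO⟩ := exists_Ioc_subset_of_mem_nhds hO ⟨b1, hb1⟩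
        exact ⟨⟨d, hd⟩, hdO⟩
      · rintro ⟨i, hi⟩ ⟨j, hj⟩
        exact ⟨⟨max i j, max_lt hi hj⟩, fun t ht =>
          ⟨⟨lt_of_le_of_lt (le_max_left _ _) ht.1, ht.2⟩,
            ⟨lt_of_le_of_lt (le_max_right _ _) ht.1, ht.2⟩⟩⟩
      · rintro ⟨d, hd⟩
        exact (hkey d hd).2.trans (hVG _)
      · exact Or.inr ⟨⟨N, hN, hNy⟩, fun d => ⟨d.2, le_rfl⟩⟩
      · exact fun d => (hkey d.1 d.2).1

/-- no wandering intervals -/
def NW (f : α → α) : Prop :=
  ∀ a b : α, a < b → ∃ i j : ℕ, i < j ∧ (f^[i] '' Icc a b ∩ f^[j] '' Icc a b).Nonempty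

/-- the interval attached to the right neighbourhood `Ioo y d` -/
def C (f : α → α) (y d : α) : Set α := {t | ∃ s ∈ Ioo y d, uIcc s t ⊆ V f (Ioo y d)}

lemma C_sub_V {f : α → α} {y d : α} : C f y d ⊆ V f (Ioo y d) := by
  rintro t ⟨s, -, hs⟩
  exact hs right_mem_uIcc

lemma Ioo_sub_C {f : α → α} {y d : α} : Ioo y d ⊆ C f y d := by
  intro t ht
  refine ⟨t, ht, ?_⟩
  rw [uIcc_self, singleton_subset_iff]
  exact subset_V _ _ ht

lemma C_mono {f : α → α} {y d d' : α} (h : d' ≤ d) : C f y d' ⊆ C f y d := by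
  rintro t ⟨s, hs, hst⟩
  exact ⟨s, ⟨hs.1, lt_of_lt_of_le hs.2 h⟩, hst.trans (V_mono (Ioo_subset_Ioo_right h))⟩

lemma C_uIcc {f : α → α} {y d a b : α} (ha : a ∈ C f y d) (hb : b ∈ C f y d) :
    uIcc a b ⊆ C f y d := by
  obtain ⟨s, hs, hsa⟩ := ha
  obtain ⟨s', hs', hsb⟩ := hb
  intro t ht
  rcases uIcc_subset_uIcc_union_uIcc (b := s) ht with h | h
  · refine ⟨s, hs, subset_trans ?_ hsa⟩
    rw [uIcc_comm a s] at h
    exact uIcc_subset_uIcc left_mem_uIcc h
  · rcases uIcc_subset_uIcc_union_uIcc (b := s') h with h | h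
    · apply Ioo_sub_C
      rcases le_total s s' with h2 | h2
      · rw [uIcc_of_le h2] at h
        exact ⟨lt_of_lt_of_le hs.1 h.1, lt_of_le_of_lt h.2 hs'.2⟩
      · rw [uIcc_of_ge h2] at h
        exact ⟨lt_of_lt_of_le hs'.1 h.1, lt_of_le_of_lt h.2 hs.2⟩
    · exact ⟨s', hs', subset_trans (uIcc_subset_uIcc left_mem_uIcc h) hsb⟩

lemma C_ordConnected {f : α → α} {y d : α} : OrdConnected (C f y d) :=
  ⟨fun _ ha _ hb => (Icc_subset_uIcc).trans (C_uIcc ha hb)⟩

lemma C_iter {f : α → α} (hf : Continuous f) {y d : α} {k : ℕ}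
    (h : (f^[k] '' C f y d ∩ C f y d).Nonempty) : f^[k] '' C f y d ⊆ C f y d := by
  obtain ⟨_, ⟨a, ha, rfl⟩, s, hs, hsa⟩ := h
  rintro _ ⟨b, hb, rfl⟩
  refine ⟨s, hs, ?_⟩
  intro t ht
  rcases uIcc_subset_uIcc_union_uIcc (b := f^[k] a) ht with h | h
  · exact hsa h
  · obtain ⟨w, hw, rfl⟩ := iter_uIcc hf k a b h
    exact V_iter k (C_sub_V (C_uIcc ha hb hw))

lemma dvd_of_inter {f : α → α} {C : Set α}
    (hC : ∀ k, (f^[k] '' C ∩ C).Nonempty → f^[k] '' C ⊆ C) {n : ℕ} (hn : 1 ≤ n)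
    (hn1 : (f^[n] '' C ∩ C).Nonempty) (hmin : ∀ r, 1 ≤ r → r < n → ¬ (f^[r] '' C ∩ C).Nonempty)
    {i j : ℕ} (hij : i ≤ j) (h : (f^[i] '' C ∩ f^[j] '' C).Nonempty) : n ∣ j - i := by
  have s1 : ∀ q, ∀ c ∈ C, f^[n * q] c ∈ C := by
    intro q
    induction q with
    | zero => intro c hc; simpa using hc
    | succ q ih =>
      intro c hc
      rw [Nat.mul_succ, add_comm, Function.iterate_add_apply]
      exact hC n hn1 (mem_image_of_mem _ (ih c hc))
  have s2 : ∀ k, ∀ c ∈ C, f^[k] c ∈ C → n ∣ k := by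
    intro k c hc hk
    by_contra hnd
    have hr : 1 ≤ k % n := by
      rcases Nat.eq_zero_or_pos (k % n) with h0 | h0
      · exact absurd (Nat.dvd_of_mod_eq_zero h0) hnd
      · exact h0
    apply hmin (k % n) hr (Nat.mod_lt _ (by omega))
    refine ⟨f^[k] c, ⟨f^[n * (k / n)] c, s1 _ c hc, ?_⟩, hk⟩
    rw [← Function.iterate_add_apply, Nat.mod_add_div]
  obtain ⟨z, ⟨a, ha, haz⟩, ⟨b, hb, hbz⟩⟩ := h
  obtain ⟨n', rfl⟩ : ∃ n', n = n' + 1 := ⟨n - 1, by omega⟩
  have h1 : f^[n' * i] z ∈ C := by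
    rw [← haz, ← Function.iterate_add_apply, show n' * i + i = (n' + 1) * i by ring]
    exact s1 i a ha
  have h2 : f^[n' * i + j] b ∈ C := by
    rw [Function.iterate_add_apply, hbz]; exact h1
  have h3 := s2 _ b hb h2
  have h4 : n' * i + j = (n' + 1) * i + (j - i) := by
    have : (n' + 1) * i = n' * i + i := by ring
    omega
  rw [h4] at h3
  exact (Nat.dvd_add_right (dvd_mul_right _ _)).1 h3

lemma branch_iter {f : α → α} {x : α} {b : ℕ → α} (hb : IsBranch f x b) (k n : ℕ) :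
    f^[k] (b (n + k)) = b n := by
  induction k generalizing n with
  | zero => rfl
  | succ k ih =>
    rw [Function.iterate_succ_apply']
    have := ih (n + 1)
    rw [show n + (k + 1) = n + 1 + k by ring, this, hb.2]

theorem right {f : α → α} (hf : Continuous f) (hNW : NW f) {x y : α} (hmax : ∃ d, y < d)
    (h : ∀ d, y < d → ∃ b, IsBranch f x b ∧ ∃ᶠ n in atTop, b n ∈ Ioo y d) : Acc f x y := by
  classical
  -- return property
  have hret : ∀ d, y < d → ∃ u ∈ Ioo y d, ∃ m : ℕ, 1 ≤ m ∧ f^[m] u ∈ Ioo y d := by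
    intro d hd
    obtain ⟨b, hb, hfr⟩ := h d hd
    rw [frequently_atTop] at hfr
    obtain ⟨n, -, hn⟩ := hfr 0
    obtain ⟨m, hm, hm2⟩ := hfr (n + 1)
    refine ⟨b m, hm2, m - n, by omega, ?_⟩
    have := branch_iter hb (m - n) n
    rw [show n + (m - n) = m by omega] at this
    rwa [this]
  have hxV : ∀ d, y < d → x ∈ V f (Ioo y d) := by
    intro d hd
    obtain ⟨b, hb, hfr⟩ := h d hd
    obtain ⟨n, hn⟩ := hfr.exists
    refine ⟨b n, hn, n, ?_⟩
    have := branch_iter hb n 0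
    rw [zero_add, hb.1] at this
    exact this
  by_cases hB0 : ∃ e, y < e ∧ ∀ d, y < d → Ioo y e ⊆ V f (Ioo y d)
  · obtain ⟨e, he, hP⟩ := hB0
    refine lemQ (ι := {d // y < d}) (fun d => Ioo y d.1) ?_ ?_ ⟨e, he⟩ ?_ ?_ ?_
    · intro O hO
      obtain ⟨d, hd, hdO⟩ := exists_Ico_subset_of_mem_nhds hO hmax
      exact ⟨⟨d, hd⟩, Ioo_subset_Ico_self.trans hdO⟩
    · rintro ⟨i, hi⟩ ⟨j, hj⟩
      exact ⟨⟨min i j, lt_min hi hj⟩, fun t ht =>
        ⟨⟨ht.1, lt_of_lt_of_le ht.2 (min_le_left _ _)⟩, ⟨ht.1, lt_of_lt_of_le ht.2 (min_le_right _ _)⟩⟩⟩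
    · rintro ⟨d, hd⟩
      exact hP d hd
    · exact Or.inl fun d hd => lt_irrefl _ hd.1
    · exact fun d => hxV d.1 d.2
  push Not at hB0
  have hsmallR : ∀ e, y < e → ∃ d, y < d ∧ ∀ d', d' ≤ d → C f y d' ⊆ Iio e := by
    intro e he
    obtain ⟨d, hd, hde⟩ := hB0 e he
    refine ⟨d, hd, fun d' hd' a ha => ?_⟩
    by_contra hcon
    rw [mem_Iio, not_lt] at hcon
    apply hde
    have ha' := C_mono hd' ha
    intro t ht
    obtain ⟨s, hs1, hs2⟩ := exists_between (lt_min ht.1 hd)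
    apply C_sub_V
    have hs : s ∈ C f y d := Ioo_sub_C ⟨hs1, lt_of_lt_of_le hs2 (min_le_right _ _)⟩
    exact C_ordConnected.out hs ha' ⟨(lt_of_lt_of_le hs2 (min_le_left _ _)).le, ht.2.le.trans hcon⟩
  -- periods
  have hper : ∀ d, y < d → ∃ n : ℕ, 1 ≤ n ∧ (f^[n] '' C f y d ∩ C f y d).Nonempty ∧
      ∀ r, 1 ≤ r → r < n → ¬ (f^[r] '' C f y d ∩ C f y d).Nonempty := by
    intro d hd
    have hex : ∃ n : ℕ, 1 ≤ n ∧ (f^[n] '' C f y d ∩ C f y d).Nonempty := by
      obtain ⟨u, hu, m, hm, hmu⟩ := hret d hd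
      exact ⟨m, hm, _, ⟨u, Ioo_sub_C hu, rfl⟩, Ioo_sub_C hmu⟩
    refine ⟨Nat.find hex, (Nat.find_spec hex).1, (Nat.find_spec hex).2, fun r hr hrn hne => ?_⟩
    exact Nat.find_min hex hrn ⟨hr, hne⟩
  choose! n hn1 hn2 hn3 using hper
  have hnC : ∀ d, y < d → ∀ t ∈ C f y d, ∀ q, f^[n d * q] t ∈ C f y d := by
    intro d hd t ht q
    induction q with
    | zero => simpa using ht
    | succ q ih =>
      rw [Nat.mul_succ, add_comm, Function.iterate_add_apply]
      exact C_iter hf (hn2 d hd) (mem_image_of_mem _ ih)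
  have hdvd : ∀ d, y < d → ∀ i j, i ≤ j → (f^[i] '' C f y d ∩ f^[j] '' C f y d).Nonempty →
      n d ∣ j - i := fun d hd i j hij hne =>
    dvd_of_inter (fun k => C_iter hf) (hn1 d hd) (hn2 d hd) (hn3 d hd) hij hne
  have hnmono : ∀ d d', y < d' → d' ≤ d → n d ≤ n d' := by
    intro d d' hd' hdd
    by_contra hcon
    push Not at hcon
    apply hn3 d (lt_of_lt_of_le hd' hdd) (n d') (hn1 d' hd') hcon
    obtain ⟨z, ⟨a, ha, haz⟩, hz⟩ := hn2 d' hd'
    exact ⟨z, ⟨a, C_mono hdd ha, haz⟩, C_mono hdd hz⟩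
  have hcloC : ∀ d, y < d → y ∈ closure (C f y d) := by
    intro d hd
    apply closure_mono (Ioo_sub_C (f := f))
    rw [closure_Ioo hd.ne]
    exact ⟨le_rfl, hd.le⟩
  have hcloOrd : ∀ d, OrdConnected (closure (C f y d)) := fun d =>
    ((C_ordConnected (f := f) (y := y) (d := d)).isPreconnected.closure).ordConnected
  by_cases hbd : ∃ n0, ∀ d, y < d → n d ≤ n0
  · -- bounded periods
    obtain ⟨d0, hd0, hd0max⟩ : ∃ d0, y < d0 ∧ ∀ d, y < d → n d ≤ n d0 := by
      by_contra hcon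
      push Not at hcon
      obtain ⟨n0, hn0⟩ := hbd
      have : ∀ k, ∃ d, y < d ∧ k ≤ n d := by
        intro k
        induction k with
        | zero => obtain ⟨d, hd⟩ := hmax; exact ⟨d, hd, Nat.zero_le _⟩
        | succ k ih =>
          obtain ⟨d, hd, hk⟩ := ih
          obtain ⟨d', hd', hdd⟩ := hcon d hd
          exact ⟨d', hd', by omega⟩
      obtain ⟨d, hd, hk⟩ := this (n0 + 1)
      have := hn0 d hd
      omega
    have hneq : ∀ d, y < d → d ≤ d0 → n d = n d0 := fun d hd hdd =>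
      le_antisymm (hd0max d hd) (hnmono d0 d hd hdd)
    set g := f^[n d0] with hg
    have hgc : Continuous g := hf.iterate _
    have hgq : ∀ q, g^[q] = f^[n d0 * q] := fun q => by rw [hg, ← Function.iterate_mul]
    let ι := {d // y < d ∧ d ≤ d0}
    have : Nonempty ι := ⟨⟨d0, hd0, le_rfl⟩⟩
    set K : Set α := ⋂ d : ι, closure (C f y d.1) with hK
    have hgCd : ∀ d : ι, ∀ t ∈ C f y d.1, ∀ q, g^[q] t ∈ C f y d.1 := by
      intro d t ht q
      rw [hgq, ← hneq d.1 d.2.1 d.2.2]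
      exact hnC d.1 d.2.1 t ht q
    have hyK : y ∈ K := mem_iInter.2 fun d => hcloC d.1 d.2.1
    have hKle : ∀ t ∈ K, t ≤ y := by
      intro t ht
      by_contra hcon
      push Not at hcon
      obtain ⟨e, he1, he2⟩ := exists_between hcon
      obtain ⟨d, hd, hde⟩ := hsmallR e he1
      have h1 : t ∈ closure (C f y (min d d0)) :=
        mem_iInter.1 ht ⟨min d d0, lt_min hd hd0, min_le_right _ _⟩
      have h2 : closure (C f y (min d d0)) ⊆ Iic e :=
        closure_minimal ((hde _ (min_le_left _ _)).trans Iio_subset_Iic_self) isClosed_Iic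
      exact absurd (h2 h1) (not_le.2 he2)
    have hKcl : IsClosed K := isClosed_iInter fun _ => isClosed_closure
    have hKg : ∀ t ∈ K, g t ∈ K := by
      intro t ht
      refine mem_iInter.2 fun d => ?_
      exact map_mem_closure hgc (mem_iInter.1 ht d) fun s hs => hgCd d s hs 1
    have hKord : ∀ a ∈ K, Icc a y ⊆ K := by
      intro a ha t ht
      exact mem_iInter.2 fun d => (hcloOrd d.1).out (mem_iInter.1 ha d) (hcloC d.1 d.2.1) ht
    obtain ⟨c, hcK, hcmin⟩ := hKcl.isCompact.exists_isLeast ⟨y, hyK⟩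
    have hretq : ∀ d : ι, ∃ u ∈ Ioo y d.1, ∃ q, g (g^[q] u) ∈ Ioo y d.1 := by
      intro d
      obtain ⟨u, hu, m, hm, hmu⟩ := hret d.1 d.2.1
      have h1 : n d.1 ∣ m - 0 := hdvd d.1 d.2.1 0 m (Nat.zero_le _)
        ⟨f^[m] u, ⟨f^[m] u, Ioo_sub_C hmu, rfl⟩, ⟨u, Ioo_sub_C hu, rfl⟩⟩
      rw [hneq d.1 d.2.1 d.2.2, Nat.sub_zero] at h1
      obtain ⟨q, rfl⟩ := h1
      obtain ⟨q', rfl⟩ : ∃ q', q = q' + 1 := ⟨q - 1, by
        rcases Nat.eq_zero_or_pos q with h | h
        · subst h; simp at hm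
        · omega⟩
      refine ⟨u, hu, q', ?_⟩
      rw [← Function.iterate_succ_apply' g q' u, hgq]
      exact hmu
    have hyper : g y = y ∨ g (g y) = y := by
      by_contra hcon
      push Not at hcon
      obtain ⟨hgy, hggy⟩ := hcon
      have hgylt : g y < y := lt_of_le_of_ne (hKle _ (hKg y hyK)) hgy
      have hcgy : c ≤ g y := hcmin (hKg y hyK)
      have hcy : c < y := lt_of_le_of_lt hcgy hgylt
      by_cases hgcy : g c = y
      · have hcgy' : c < g y := lt_of_le_of_ne hcgy fun e => hggy (by rw [← e]; exact hgcy)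
        have hO : g ⁻¹' Ioo c y ∈ 𝓝 y :=
          hgc.continuousAt.preimage_mem_nhds (isOpen_Ioo.mem_nhds ⟨hcgy', hgylt⟩)
        obtain ⟨e, he, heO⟩ := exists_Ico_subset_of_mem_nhds hO hmax
        obtain ⟨u, hu, q, hq⟩ := hretq ⟨min e d0, lt_min he hd0, min_le_right _ _⟩
        have h1 : g u ∈ K := by
          apply hKord c hcK
          have := heO ⟨hu.1.le, lt_of_lt_of_le hu.2 (min_le_left _ _)⟩
          exact ⟨this.1.le, this.2.le⟩
        have h2 : ∀ q, g (g^[q] u) ∈ K := by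
          intro q
          induction q with
          | zero => exact h1
          | succ q ih => rw [Function.iterate_succ_apply']; exact hKg _ ih
        exact absurd hq.1 (not_lt.2 (hKle _ (h2 q)))
      · have hgclt : g c < y := lt_of_le_of_ne (hKle _ (hKg c hcK)) hgcy
        have hO1 : IsOpen (g ⁻¹' Iio y ∪ Ioo c y) := (isOpen_Iio.preimage hgc).union isOpen_Ioo
        obtain ⟨d, hd⟩ : ∃ d : ι, closure (C f y d.1) ⊆ g ⁻¹' Iio y ∪ Ioo c y := by
          refine exists_subset_nhds_of_isCompact' ?_ (fun d => isClosed_closure.isCompact)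
            (fun d => isClosed_closure) ?_
          · rintro ⟨i, hi, hi'⟩ ⟨j, hj, hj'⟩
            exact ⟨⟨min i j, lt_min hi hj, (min_le_left _ _).trans hi'⟩,
              closure_mono (C_mono (min_le_left _ _)), closure_mono (C_mono (min_le_right _ _))⟩
          · intro t ht
            apply hO1.mem_nhds
            have h1 : c ≤ t := hcmin ht
            have h2 : t ≤ y := hKle t ht
            rcases eq_or_lt_of_le h1 with h3 | h3
            · left; rw [← h3]; exact hgclt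
            · rcases eq_or_lt_of_le h2 with h4 | h4
              · left; rw [h4]; exact hgylt
              · right; exact ⟨h3, h4⟩
        obtain ⟨u, hu, q, hq⟩ := hretq d
        have h1 := hgCd d u (Ioo_sub_C hu) q
        rcases hd (subset_closure h1) with h2 | h2
        · exact absurd hq.1 (not_lt.2 (le_of_lt h2))
        · have h3 : g^[q] u ∈ K := hKord c hcK ⟨h2.1.le, h2.2.le⟩
          exact absurd hq.1 (not_lt.2 (hKle _ (hKg _ h3)))
    have hxI : ∀ d, y < d → x ∈ V f (Ico y d) := fun d hd => V_mono Ioo_subset_Ico_self (hxV d hd)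
    rcases hyper with h1 | h1
    · exact lemP hf (hn1 d0 hd0) h1 hmax hxI
    · refine lemP hf (N := n d0 + n d0) (by have := hn1 d0 hd0; omega) ?_ hmax hxI
      rw [Function.iterate_add_apply]
      exact h1
  · -- unbounded periods: a solenoid
    push Not at hbd
    let ι := {d // y < d}
    have : Nonempty ι := by obtain ⟨d, hd⟩ := hmax; exact ⟨⟨d, hd⟩⟩
    have hshrink : ∀ O ∈ 𝓝 y, ∃ d : ι, closure (C f y d.1) ⊆ O := by
      intro O hO
      refine exists_subset_nhds_of_isCompact' ?_ (fun d => isClosed_closure.isCompact)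
        (fun d => isClosed_closure) ?_
      · rintro ⟨i, hi⟩ ⟨j, hj⟩
        exact ⟨⟨min i j, lt_min hi hj⟩,
          closure_mono (C_mono (min_le_left _ _)), closure_mono (C_mono (min_le_right _ _))⟩
      · intro t ht
        have h1 : t ≤ y := by
          by_contra hcon
          push Not at hcon
          obtain ⟨e, he1, he2⟩ := exists_between hcon
          obtain ⟨d, hd, hde⟩ := hsmallR e he1
          have h1 : t ∈ closure (C f y d) := mem_iInter.1 ht ⟨d, hd⟩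
          have h2 : closure (C f y d) ⊆ Iic e :=
            closure_minimal ((hde _ le_rfl).trans Iio_subset_Iic_self) isClosed_Iic
          exact absurd (h2 h1) (not_le.2 he2)
        rcases eq_or_lt_of_le h1 with h2 | h2
        · rw [h2]; exact hO
        · exfalso
          obtain ⟨a, ha1, ha2⟩ := exists_between h2
          obtain ⟨b, hb1, hb2⟩ := exists_between ha2
          have hsub : ∀ d, y < d → Icc a b ⊆ C f y d := by
            intro d hd s hs
            have h3 : t ∈ closure (C f y d) := mem_iInter.1 ht ⟨d, hd⟩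
            obtain ⟨c, hc1, hc2⟩ := mem_closure_iff.1 h3 (Iio a) isOpen_Iio ha1
            obtain ⟨e, he1, he2⟩ := exists_between hd
            exact C_ordConnected.out hc2 (Ioo_sub_C (f := f) ⟨he1, he2⟩)
              ⟨(le_of_lt hc1).trans hs.1, hs.2.trans (hb2.le.trans he1.le)⟩
          obtain ⟨i, j, hij, z, ⟨p, hp, hpz⟩, ⟨p', hp', hpz'⟩⟩ := hNW a b hb1
          obtain ⟨d, hd, hdn⟩ := hbd (j - i)
          have h4 := hdvd d hd i j hij.le ⟨z, ⟨p, hsub d hd hp, hpz⟩, ⟨p', hsub d hd hp', hpz'⟩⟩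
          have := Nat.le_of_dvd (by omega) h4
          omega
    -- a limit branch
    let B : ι → Set (ℕ → α) := fun d =>
      closure {b | IsBranch f x b ∧ ∃ᶠ n in atTop, b n ∈ Ioo y d.1}
    obtain ⟨β, hβ⟩ : (⋂ d, B d).Nonempty := by
      refine IsCompact.nonempty_iInter_of_directed_nonempty_isCompact_isClosed B ?_ ?_
        (fun d => isClosed_closure.isCompact) (fun d => isClosed_closure)
      · rintro ⟨i, hi⟩ ⟨j, hj⟩
        refine ⟨⟨min i j, lt_min hi hj⟩, closure_mono ?_, closure_mono ?_⟩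
        · rintro b ⟨hb, hfr⟩
          exact ⟨hb, hfr.mono fun n hn => ⟨hn.1, lt_of_lt_of_le hn.2 (min_le_left _ _)⟩⟩
        · rintro b ⟨hb, hfr⟩
          exact ⟨hb, hfr.mono fun n hn => ⟨hn.1, lt_of_lt_of_le hn.2 (min_le_right _ _)⟩⟩
      · rintro ⟨d, hd⟩
        obtain ⟨b, hb⟩ := h d hd
        exact ⟨b, subset_closure hb⟩
    have hβd : ∀ d : ι, β ∈ closure {b | IsBranch f x b ∧ ∃ᶠ n in atTop, b n ∈ Ioo y d.1} :=
      fun d => mem_iInter.1 hβ d
    refine ⟨β, ?_, ?_⟩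
    · have hcl : IsClosed {b : ℕ → α | IsBranch f x b} := by
        have : {b : ℕ → α | IsBranch f x b} = {b | b 0 = x} ∩ ⋂ n, {b | f (b (n + 1)) = b n} := by
          ext b; simp [IsBranch]
        rw [this]
        refine (isClosed_eq (continuous_apply 0) continuous_const).inter
          (isClosed_iInter fun n => ?_)
        exact isClosed_eq (hf.comp (continuous_apply (n + 1))) (continuous_apply n)
      obtain ⟨d, hd⟩ := hmax
      exact closure_minimal (fun b hb => hb.1) hcl (hβd ⟨d, hd⟩)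
    · intro O hO
      obtain ⟨d, hd⟩ := hshrink O hO
      rw [frequently_atTop]
      intro T
      have hcl : IsClosed (⋃ t ∈ Finset.Ico T (T + n d.1), {b : ℕ → α | b t ∈ closure (C f y d.1)}) := by
        refine isClosed_biUnion_finset fun t _ => ?_
        exact isClosed_closure.preimage (continuous_apply t)
      have hmem : β ∈ ⋃ t ∈ Finset.Ico T (T + n d.1), {b : ℕ → α | b t ∈ closure (C f y d.1)} := by
        refine closure_minimal ?_ hcl (hβd d)
        rintro b ⟨hb, hfr⟩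
        rw [frequently_atTop] at hfr
        obtain ⟨s, hs, hsd⟩ := hfr T
        have hn := hn1 d.1 d.2
        have hdm := Nat.mod_add_div (s - T) (n d.1)
        have hml := Nat.mod_lt (s - T) (show 0 < n d.1 by omega)
        rw [mem_iUnion₂]
        refine ⟨T + (s - T) % n d.1, Finset.mem_Ico.2 ⟨by omega, by omega⟩, ?_⟩
        apply subset_closure
        have h1 := branch_iter hb (n d.1 * ((s - T) / n d.1)) (T + (s - T) % n d.1)
        rw [show T + (s - T) % n d.1 + n d.1 * ((s - T) / n d.1) = s by omega] at h1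
        rw [← h1]
        exact hnC d.1 d.2 _ (Ioo_sub_C hsd) _
      rw [mem_iUnion₂] at hmem
      obtain ⟨t, ht, htd⟩ := hmem
      exact ⟨t, (Finset.mem_Ico.1 ht).1, hd htd⟩

end Abstract

/-! ### the interval -/

section Interval

open unitInterval

lemma sAlpha_iff {f : I → I} {x y : I} : y ∈ sAlpha f x ↔ Acc f x y := by
  constructor
  · rintro ⟨b, hb, k, hk, hky⟩
    exact ⟨b, hb, fun O hO => hk.frequently (hky.eventually hO).frequently⟩
  · rintro ⟨b, hb, h⟩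
    obtain ⟨ψ, hψ, hψy⟩ := MapClusterPt.tendsto_subseq (u := b) (x := y)
      (mapClusterPt_iff_frequently.2 h)
    exact ⟨b, hb, ψ, hψ.tendsto_atTop, hψy⟩

theorem closed_of_NW {f : I → I} (hf : Continuous f) (hNW : NW f) (x : I) :
    IsClosed (sAlpha f x) := by
  refine isClosed_of_closure_subset fun y hy => ?_
  by_contra hnot
  have hR : ∃ O ∈ 𝓝 y, ∀ z ∈ O, z ∈ sAlpha f x → ¬ y < z := by
    by_cases hmax : ∃ d, y < d
    · have : ∃ d, y < d ∧ ∀ z ∈ sAlpha f x, z ∉ Ioo y d := by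
        by_contra hcon
        push Not at hcon
        apply hnot
        rw [sAlpha_iff]
        refine right hf hNW hmax fun d hd => ?_
        obtain ⟨z, hz, hzd⟩ := hcon d hd
        obtain ⟨b, hb, hbO⟩ := sAlpha_iff.1 hz
        exact ⟨b, hb, hbO _ (isOpen_Ioo.mem_nhds hzd)⟩
      obtain ⟨d, hd, hdz⟩ := this
      exact ⟨Iio d, isOpen_Iio.mem_nhds hd, fun z hz hzs hyz => hdz z hzs ⟨hyz, hz⟩⟩
    · push Not at hmax
      exact ⟨univ, univ_mem, fun z _ _ => not_lt.2 (hmax z)⟩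
  have hL : ∃ O ∈ 𝓝 y, ∀ z ∈ O, z ∈ sAlpha f x → ¬ z < y := by
    by_cases hmax : ∃ d, d < y
    · have : ∃ d, d < y ∧ ∀ z ∈ sAlpha f x, z ∉ Ioo d y := by
        by_contra hcon
        push Not at hcon
        apply hnot
        rw [sAlpha_iff]
        have hNW' : NW (α := Iᵒᵈ) f := by
          intro a b hab
          obtain ⟨i, j, hij, z, ⟨p, hp, hpz⟩, ⟨q, hq, hqz⟩⟩ :=
            hNW (OrderDual.ofDual b) (OrderDual.ofDual a) hab
          exact ⟨i, j, hij, z, ⟨p, ⟨hp.2, hp.1⟩, hpz⟩, ⟨q, ⟨hq.2, hq.1⟩, hqz⟩⟩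
        refine right (α := Iᵒᵈ) (f := f) hf hNW' hmax fun d hd => ?_
        obtain ⟨z, hz, hzd⟩ := hcon d hd
        obtain ⟨b, hb, hbO⟩ := sAlpha_iff.1 hz
        exact ⟨b, hb, (hbO _ (isOpen_Ioo.mem_nhds hzd)).mono fun n hn => ⟨hn.2, hn.1⟩⟩
      obtain ⟨d, hd, hdz⟩ := this
      exact ⟨Ioi d, isOpen_Ioi.mem_nhds hd, fun z hz hzs hyz => hdz z hzs ⟨hz, hyz⟩⟩
    · push Not at hmax
      exact ⟨univ, univ_mem, fun z _ _ => not_lt.2 (hmax z)⟩
  obtain ⟨O₁, hO₁, h₁⟩ := hR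
  obtain ⟨O₂, hO₂, h₂⟩ := hL
  obtain ⟨z, ⟨hz1, hz2⟩, hzs⟩ := mem_closure_iff_nhds.1 hy _ (inter_mem hO₁ hO₂)
  rcases lt_trichotomy y z with h | h | h
  · exact h₁ z hz1 hzs h
  · exact hnot (h ▸ hzs)
  · exact h₂ z hz2 hzs h

/-! ### genericity -/

/-- every interval of length `δ` has an image of length at least `ρ` -/
def E (f : C(I, I)) (δ ρ : ℝ) : Prop :=
  ∀ a b : I, (a : ℝ) + δ ≤ b → ∃ u ∈ Icc a b, ∃ v ∈ Icc a b, ρ ≤ |(f u : ℝ) - f v|

/-- the open dense sets -/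
def O (k : ℕ) : Set C(I, I) :=
  {f | ∃ δ ρ : ℝ, 0 < δ ∧ δ < 1 / ((k : ℝ) + 1) ∧ δ < ρ ∧ E f δ ρ}

lemma isOpen_O (k : ℕ) : IsOpen (O k) := by
  rw [Metric.isOpen_iff]
  rintro f ⟨δ, ρ, h0, h1, h2, h3⟩
  refine ⟨(ρ - δ) / 4, by linarith, fun f' hf' => ⟨δ, (ρ + δ) / 2, h0, h1, by linarith, ?_⟩⟩
  intro a b hab
  obtain ⟨u, hu, v, hv, huv⟩ := h3 a b hab
  refine ⟨u, hu, v, hv, ?_⟩
  rw [Metric.mem_ball] at hf'
  have e1 : |(f' u : ℝ) - f u| < (ρ - δ) / 4 :=
    lt_of_le_of_lt (ContinuousMap.dist_apply_le_dist (f := f') (g := f) u) hf'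
  have e2 : |(f' v : ℝ) - f v| < (ρ - δ) / 4 :=
    lt_of_le_of_lt (ContinuousMap.dist_apply_le_dist (f := f') (g := f) v) hf'
  have e3 : |(f u : ℝ) - f v| ≤ |(f' u : ℝ) - f' v| + (|(f' u : ℝ) - f u| + |(f' v : ℝ) - f v|) := by
    have := abs_sub_abs_le_abs_sub ((f u : ℝ) - f v) ((f' u : ℝ) - f' v)
    have h4 : |((f u : ℝ) - f v) - ((f' u : ℝ) - f' v)| ≤
        |(f' u : ℝ) - f u| + |(f' v : ℝ) - f v| := by
      rw [show ((f u : ℝ) - f v) - ((f' u : ℝ) - f' v) =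
        ((f' v : ℝ) - f v) - ((f' u : ℝ) - f u) by ring]
      rw [add_comm]
      exact abs_sub _ _
    linarith
  linarith

lemma dense_O (k : ℕ) : Dense (O k) := by
  rw [Metric.dense_iff]
  intro f ε hε
  set e : ℝ := min (ε / 2) (1 / 2) with he
  have he0 : 0 < e := by positivity
  have he1 : e ≤ ε / 2 := min_le_left _ _
  have he2 : e ≤ 1 / 2 := min_le_right _ _
  obtain ⟨δ0, hδ0, hu⟩ := Metric.uniformContinuous_iff.1
    (CompactSpace.uniformContinuous_of_continuous f.continuous) (e / 4) (by positivity)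
  set δ : ℝ := min (δ0 / 2) (min (e / 4) (1 / (2 * ((k : ℝ) + 1)))) with hδ
  have hd0 : 0 < δ := by positivity
  have hd1 : δ < δ0 := lt_of_le_of_lt (min_le_left _ _) (by linarith)
  have hd2 : δ ≤ e / 4 := (min_le_right _ _).trans (min_le_left _ _)
  have hd3 : δ < 1 / ((k : ℝ) + 1) := by
    refine lt_of_le_of_lt ((min_le_right _ _).trans (min_le_right _ _)) ?_
    apply one_div_lt_one_div_of_lt (by positivity)
    have : (0 : ℝ) ≤ k := Nat.cast_nonneg k
    linarith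
  have hmem : ∀ x : I, (1 - e) * (f x : ℝ) + e * Real.sin (Real.pi * (x / δ)) ^ 2 ∈ Icc (0 : ℝ) 1 := by
    intro x
    have h1 := (f x).2.1
    have h2 := (f x).2.2
    have h3 := sq_nonneg (Real.sin (Real.pi * (x / δ)))
    have h4 := Real.sin_sq_le_one (Real.pi * (x / δ))
    constructor
    · have := mul_nonneg (show 0 ≤ 1 - e by linarith) h1
      have := mul_nonneg he0.le h3
      linarith
    · have := mul_le_mul_of_nonneg_left h2 (show 0 ≤ 1 - e by linarith)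
      have := mul_le_mul_of_nonneg_left h4 he0.le
      linarith
  let h : C(I, I) := ⟨fun x => ⟨_, hmem x⟩, by
    refine Continuous.subtype_mk ?_ _
    fun_prop⟩
  have hval : ∀ x : I, (h x : ℝ) = (1 - e) * (f x : ℝ) + e * Real.sin (Real.pi * (x / δ)) ^ 2 :=
    fun x => rfl
  refine ⟨h, ?_, δ, 3 * e / 4, hd0, hd3, by linarith, ?_⟩
  · rw [Metric.mem_ball]
    refine lt_of_le_of_lt ((ContinuousMap.dist_le he0.le).2 fun x => ?_) (by linarith : e < ε)
    rw [Subtype.dist_eq, hval, Real.dist_eq]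
    have h1 := (f x).2.1
    have h2 := (f x).2.2
    have h3 := sq_nonneg (Real.sin (Real.pi * (x / δ)))
    have h4 := Real.sin_sq_le_one (Real.pi * (x / δ))
    rw [show (1 - e) * (f x : ℝ) + e * Real.sin (Real.pi * (x / δ)) ^ 2 - f x =
      e * (Real.sin (Real.pi * (x / δ)) ^ 2 - f x) by ring, abs_mul, abs_of_pos he0]
    have : |Real.sin (Real.pi * (x / δ)) ^ 2 - (f x : ℝ)| ≤ 1 := by
      rw [abs_le]; constructor <;> linarith
    calc _ ≤ e * 1 := mul_le_mul_of_nonneg_left this he0.le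
      _ = e := mul_one e
  · intro a b hab
    have ha0 := a.2.1
    have hb1 := b.2.2
    -- the zero
    set m : ℤ := ⌈(a : ℝ) / δ⌉ with hm
    have m1 : (a : ℝ) ≤ m * δ := by rw [← div_le_iff₀ hd0]; exact Int.le_ceil _
    have m2 : (m : ℝ) * δ < a + δ := by
      have := Int.ceil_lt_add_one ((a : ℝ) / δ)
      rw [← hm] at this
      have h5 := mul_lt_mul_of_pos_right this hd0
      rwa [add_mul, one_mul, div_mul_cancel₀ _ hd0.ne'] at h5
    set m' : ℤ := ⌈(a : ℝ) / δ - 1 / 2⌉ with hm'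
    have m1' : (a : ℝ) ≤ (m' + 1 / 2) * δ := by
      rw [← div_le_iff₀ hd0]
      have := Int.le_ceil ((a : ℝ) / δ - 1 / 2)
      rw [← hm'] at this
      linarith
    have m2' : ((m' : ℝ) + 1 / 2) * δ < a + δ := by
      have := Int.ceil_lt_add_one ((a : ℝ) / δ - 1 / 2)
      rw [← hm'] at this
      have h5 := mul_lt_mul_of_pos_right (show (m' : ℝ) + 1 / 2 < a / δ + 1 by linarith) hd0
      rwa [add_mul (a / δ : ℝ), one_mul, div_mul_cancel₀ _ hd0.ne'] at h5
    let u : I := ⟨m * δ, by linarith, by linarith⟩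
    let v : I := ⟨(m' + 1 / 2) * δ, by linarith, by linarith⟩
    have hu' : (u : ℝ) = m * δ := rfl
    have hv' : (v : ℝ) = (m' + 1 / 2) * δ := rfl
    refine ⟨v, ⟨m1', ?_⟩, u, ⟨m1, ?_⟩, ?_⟩
    · show (v : ℝ) ≤ b
      linarith
    · show (u : ℝ) ≤ b
      linarith
    have s1 : Real.sin (Real.pi * (u / δ)) ^ 2 = 0 := by
      rw [hu', mul_div_cancel_right₀ _ hd0.ne', mul_comm, Real.sin_int_mul_pi]
      norm_num
    have s2 : Real.sin (Real.pi * (v / δ)) ^ 2 = 1 := by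
      rw [hv', mul_div_cancel_right₀ _ hd0.ne',
        show Real.pi * ((m' : ℝ) + 1 / 2) = m' * Real.pi + Real.pi / 2 by ring,
        Real.sin_add_pi_div_two, Real.cos_sq', Real.sin_int_mul_pi]
      norm_num
    have s3 : |(f u : ℝ) - f v| < e / 4 := by
      have : dist u v < δ0 := by
        rw [Subtype.dist_eq, Real.dist_eq, abs_lt]
        constructor <;> linarith
      exact hu this
    rw [hval, hval, s1, s2]
    have s4 := abs_lt.1 s3
    rw [le_abs]
    left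
    have h5 : (1 - e) * ((f u : ℝ) - f v) ≤ e / 4 := by
      rcases le_or_gt 0 ((f u : ℝ) - f v) with h | h
      · nlinarith
      · have := mul_nonneg (show 0 ≤ 1 - e by linarith) (show 0 ≤ -((f u : ℝ) - f v) by linarith)
        linarith
    linarith

lemma NW_of_mem {f : C(I, I)} (hf : ∀ k, f ∈ O k) : NW f := by
  intro a b hab
  have hab' : 0 < (b : ℝ) - a := sub_pos.2 hab
  obtain ⟨k, hk⟩ := exists_nat_one_div_lt hab'
  obtain ⟨δ, ρ, h0, h1, h2, h3⟩ := hf k
  have key : ∀ i : ℕ, ∃ u ∈ f^[i] '' Icc a b, ∃ v ∈ f^[i] '' Icc a b, (u : ℝ) + δ ≤ v := by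
    intro i
    induction i with
    | zero => exact ⟨a, ⟨a, ⟨le_rfl, hab.le⟩, rfl⟩, b, ⟨b, ⟨hab.le, le_rfl⟩, rfl⟩, by linarith⟩
    | succ i ih =>
      obtain ⟨u, hu, v, hv, huv⟩ := ih
      obtain ⟨p, hp, q, hq, hpq⟩ := h3 u v huv
      have hord : OrdConnected (f^[i] '' Icc a b) :=
        (isPreconnected_Icc.image _ (f.continuous.iterate i).continuousOn).ordConnected
      have hfp : ∀ s ∈ Icc u v, f s ∈ f^[i + 1] '' Icc a b := by
        intro s hs
        obtain ⟨w, hw, hws⟩ := hord.out hu hv hs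
        exact ⟨w, hw, by rw [Function.iterate_succ_apply', hws]⟩
      rcases le_abs.1 hpq with h | h
      · exact ⟨f q, hfp q hq, f p, hfp p hp, by linarith⟩
      · exact ⟨f p, hfp p hp, f q, hfp q hq, by linarith⟩
  choose u hu v hv huv using key
  have hcl : ∀ i, ⌈(u i : ℝ) / δ⌉₊ < ⌈1 / δ⌉₊ + 1 := by
    intro i
    have : (u i : ℝ) / δ ≤ 1 / δ := div_le_div_of_nonneg_right (u i).2.2 h0.le
    exact Nat.lt_succ_of_le (Nat.ceil_mono this)
  obtain ⟨i, j, hij, he⟩ := Finite.exists_ne_map_eq_of_infinite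
    fun i : ℕ => (⟨⌈(u i : ℝ) / δ⌉₊, hcl i⟩ : Fin (⌈1 / δ⌉₊ + 1))
  have he' : ⌈(u i : ℝ) / δ⌉₊ = ⌈(u j : ℝ) / δ⌉₊ := congrArg Fin.val he
  have hbd : ∀ i, (u i : ℝ) ≤ ⌈(u i : ℝ) / δ⌉₊ * δ ∧ (⌈(u i : ℝ) / δ⌉₊ : ℝ) * δ ≤ v i := by
    intro i
    have h4 : (0 : ℝ) ≤ (u i : ℝ) / δ := div_nonneg (u i).2.1 h0.le
    constructor
    · rw [← div_le_iff₀ h0]; exact Nat.le_ceil _
    · have h5 := mul_lt_mul_of_pos_right (Nat.ceil_lt_add_one h4) h0
      rw [add_mul, one_mul, div_mul_cancel₀ _ h0.ne'] at h5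
      have := huv i
      linarith
  let z : I := ⟨⌈(u i : ℝ) / δ⌉₊ * δ, by
    constructor
    · have := (hbd i).1; have := (u i).2.1; linarith
    · have := (hbd i).2; have := (v i).2.2; linarith⟩
  have hz : ∀ l, ⌈(u l : ℝ) / δ⌉₊ = ⌈(u i : ℝ) / δ⌉₊ → z ∈ f^[l] '' Icc a b := by
    intro l hl
    have hord : OrdConnected (f^[l] '' Icc a b) :=
      (isPreconnected_Icc.image _ (f.continuous.iterate l).continuousOn).ordConnected
    refine hord.out (hu l) (hv l) ⟨?_, ?_⟩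
    · show (u l : ℝ) ≤ ⌈(u i : ℝ) / δ⌉₊ * δ
      rw [← hl]; exact (hbd l).1
    · show (⌈(u i : ℝ) / δ⌉₊ * δ : ℝ) ≤ v l
      rw [← hl]; exact (hbd l).2
  rcases lt_or_gt_of_ne hij with h | h
  · exact ⟨i, j, h, z, hz i rfl, hz j he'.symm⟩
  · exact ⟨j, i, h, z, hz j he'.symm, hz i rfl⟩

end Interval

/-- For a generic continuous map of the interval all special alpha-limit sets are closed: there
are countably many dense open sets of maps such that every map in their intersection has all its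
special alpha-limit sets closed. -/
theorem result : ∃ G : ℕ → Set C(unitInterval, unitInterval),
    (∀ k, IsOpen (G k) ∧ Dense (G k)) ∧
    ∀ f ∈ ⋂ k, G k, ∀ x : unitInterval, IsClosed (sAlpha f x) :=
  ⟨O, fun k => ⟨isOpen_O k, dense_O k⟩, fun f hf x =>
    closed_of_NW f.continuous (NW_of_mem fun k => mem_iInter.1 hf k) x⟩

end Pool.Agent.Results.MP_2df7e1_an.GenericClosed
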